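import Pool.Agent.helper75.LC.Spec

/-!
Row lc:LOW
-/

set_option autoImplicit false

namespace Pool.Agent.LC

open MX MG

open scoped MatrixGroups

theorem LOW_one {A : Type} [Group A] (p : ℕ) [hp : Fact p.Prime] (x : A)
    (hk : ∃ k : ℕ, x ^ (p ^ k) = 1) (m : ℕ) (hm : ¬ p ∣ m) (h : x ^ m = 1) : x = 1 := by
  obtain ⟨k, hk⟩ := hk
  have h1 : orderOf x ∣ p ^ k := orderOf_dvd_of_pow_eq_one hk
  have h2 : orderOf x ∣ m := orderOf_dvd_of_pow_eq_one h
  have h3 : Nat.Coprime (p ^ k) m := Nat.Coprime.pow_left k ((Nat.Prime.coprime_iff_not_dvd hp.out).2 hm)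
  have h4 : orderOf x = 1 := Nat.eq_one_of_dvd_coprimes h3 h1 h2
  exact orderOf_eq_one_iff.1 h4

theorem LOW_cmm {A W : Type} [Group A] [AddCommGroup W] [DistribMulAction A W] (w : W)
    (h : w ∈ cmm A W (1 : A)) : w = 0 := by
  obtain ⟨u, hu⟩ := h
  rw [hu, one_smul, sub_self]

theorem LOW : LOW_stmt := by
  intro A W _ _ _ _ p _ x hx hxk s t hs hss h0 htt
  have hcard : Nat.card (s ⊕ t) = s.ncard + t.ncard := by
    rw [Nat.card_sum, Nat.card_coe_set_eq, Nat.card_coe_set_eq]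
  let e : (s ⊕ t) ≃ Fin (s.ncard + t.ncard) := Finite.equivFinOfCardEq hcard
  let F : (s ⊕ t) → W × A := Sum.elim (fun w => (w.1, x)) (fun w => (w.1, 1))
  have hF1 : ∀ i, (F i).1 ∉ cmm A W (F i).2 := by
    rintro (w | w)
    · exact hs w.1 w.2
    · intro h
      have h1 : w.1 = 0 := LOW_cmm w.1 h
      exact h0 (h1 ▸ w.2)
  have hF2 : ∀ i, ∃ k : ℕ, (F i).2 ^ (p ^ k) = 1 := by
    rintro (w | w)
    · exact hxk
    · exact ⟨0, one_pow _⟩
  have hF3 : ∀ i j, RelP p (F i) (F j) → i = j := by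
    rintro (w | w) (w' | w') ⟨c, m, hm, h1, h2⟩
    · have h3 : w.1 = w'.1 := hss w.1 w.2 w'.1 w'.2 c m hm h1 h2
      exact congrArg Sum.inl (Subtype.ext h3)
    · exfalso
      have h1' : (1 : A) = c * x ^ m * c⁻¹ := h1
      have h3 : x ^ m = 1 := by
        have h4 : c⁻¹ * (c * x ^ m * c⁻¹) * c = x ^ m := by group
        rw [← h4, ← h1']
        group
      exact hx (LOW_one p x hxk m hm h3)
    · exfalso
      have h1' : x = c * (1 : A) ^ m * c⁻¹ := h1
      apply hx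
      rw [h1']
      group
    · have h2' : w'.1 - m • (c • w.1) ∈ cmm A W (1 : A) := h2
      have h3 : w'.1 = m • (c • w.1) := sub_eq_zero.1 (LOW_cmm _ h2')
      have h4 : w.1 = w'.1 := htt w.1 w.2 w'.1 w'.2 c m hm h3
      exact congrArg Sum.inr (Subtype.ext h4)
  refine ⟨fun i => F (e.symm i), fun i => hF1 _, fun i => hF2 _, fun i j h => ?_⟩
  exact e.symm.injective (hF3 _ _ h)

end Pool.Agent.LC
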