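import Pool.Agent.helper75.LC.Spec

/-!
Row lc:MSP
-/

set_option autoImplicit false

namespace Pool.Agent.LC

open MX MG

open scoped MatrixGroups

theorem MSP_PA {G : Type} [Group G] (N M : Subgroup G) [N.Normal] (p : ℕ) (hN : N ≤ M)
    (h : PA p M) : PA p (M.map (QuotientGroup.mk' N)) := by
  obtain ⟨N', hn, hne, hc, hp⟩ := h
  have hs : Function.Surjective (QuotientGroup.mk' N) := QuotientGroup.mk'_surjective N
  have hcm : (M.map (QuotientGroup.mk' N)).comap (QuotientGroup.mk' N) = M := by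
    rw [Subgroup.comap_map_eq, QuotientGroup.ker_mk']
    exact sup_eq_left.2 hN
  refine ⟨N'.map (QuotientGroup.mk' N), hn.map _ hs, ?_, ?_, ?_⟩
  · intro hle
    apply hne
    have h1 := Subgroup.comap_mono (f := QuotientGroup.mk' N) hle
    rw [hcm] at h1
    exact (Subgroup.le_comap_map _ _).trans h1
  · rintro _ ⟨a, ha, rfl⟩ _ ⟨b, hb, rfl⟩
    exact ⟨a * b * a⁻¹ * b⁻¹, hc a ha b hb, by simp only [map_mul, map_inv]⟩
  · rintro _ ⟨a, ha, rfl⟩
    obtain ⟨k, hk⟩ := hp a ha
    exact ⟨k, a ^ (p ^ k), hk, by rw [map_pow]⟩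

theorem MSP : MSP_stmt := by
  intro G _ _ N₀ _ p
  have hs : Function.Surjective (QuotientGroup.mk' N₀) := QuotientGroup.mk'_surjective N₀
  have hsub : mcl G (PA p) ⊆
      (fun T : Set (Subgroup (G ⧸ N₀)) => (Subgroup.comap (QuotientGroup.mk' N₀)) '' T) ''
        mcl (G ⧸ N₀) (PA p) ∪ mcl G (fun M => PA p M ∧ ¬ N₀ ≤ M) := by
    rintro S ⟨H, hH, hPA, rfl⟩
    by_cases h0 : N₀ ≤ H
    · left
      have hcm : (H.map (QuotientGroup.mk' N₀)).comap (QuotientGroup.mk' N₀) = H := by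
        rw [Subgroup.comap_map_eq, QuotientGroup.ker_mk']
        exact sup_eq_left.2 h0
      refine ⟨Set.range (fun g : G ⧸ N₀ => cj g (H.map (QuotientGroup.mk' N₀))),
        ⟨H.map (QuotientGroup.mk' N₀), ⟨?_, ?_⟩, MSP_PA N₀ H p h0 hPA, rfl⟩, ?_⟩
      · intro htop
        rw [htop, Subgroup.comap_top] at hcm
        exact hH.1 hcm.symm
      · intro K hK
        have h1 : H < K.comap (QuotientGroup.mk' N₀) := by
          rw [← hcm]
          exact (Subgroup.comap_lt_comap_of_surjective hs).2 hK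
        have h2 := hH.2 _ h1
        rw [← Subgroup.map_comap_eq_self_of_surjective hs K, h2]
        exact Subgroup.map_top_of_surjective _ hs
      · have e : ∀ g : G, (cj (g : G ⧸ N₀) (H.map (QuotientGroup.mk' N₀))).comap
            (QuotientGroup.mk' N₀) = cj g H := by
          intro g
          ext x
          rw [Subgroup.mem_comap, mem_cj, mem_cj]
          have e1 : ((g : G ⧸ N₀))⁻¹ * (QuotientGroup.mk' N₀) x * (g : G ⧸ N₀) =
              (QuotientGroup.mk' N₀) (g⁻¹ * x * g) := rfl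
          rw [e1, ← Subgroup.mem_comap, hcm]
        apply Set.eq_of_subset_of_subset
        · rintro _ ⟨_, ⟨q, rfl⟩, rfl⟩
          obtain ⟨g, rfl⟩ := QuotientGroup.mk_surjective q
          exact ⟨g, (e g).symm⟩
        · rintro _ ⟨g, rfl⟩
          exact ⟨_, ⟨(g : G ⧸ N₀), rfl⟩, e g⟩
    · right
      exact ⟨H, hH, ⟨hPA, h0⟩, rfl⟩
  calc (mcl G (PA p)).ncard ≤ _ := Set.ncard_le_ncard hsub (Set.toFinite _)
    _ ≤ _ := Set.ncard_union_le _ _
    _ ≤ _ := Nat.add_le_add_right (Set.ncard_image_le (Set.toFinite _)) _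

end Pool.Agent.LC
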